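import Pool.Agent.helper74.XP.SpecR

/-!
HAK of project xp: (MP_af9036_an): Harnack inequality for the logarithm of a holomorphic function of modulus greater than one.
-/

set_option autoImplicit false

open Complex Metric Set Filter Topology MeasureTheory MPS PPS Pool.Agent.helper16.Multibrot

noncomputable section

namespace XPP

theorem HAK : HAK_stmt := by
  intro ρ c c₁ r hr hd h1 hcc
  have hne : ∀ z ∈ ball c r, ρ z ≠ 0 := by
    intro z hz h0
    have := h1 z hz
    rw [h0, norm_zero] at this
    linarith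
  have hc : c ∈ ball c r := mem_ball_self hr
  have hg : DifferentiableOn ℂ (fun z => deriv ρ z / ρ z) (ball c r) :=
    (hd.deriv isOpen_ball).div hd hne
  obtain ⟨L, hLc, hL⟩ := hg.isExactOn_ball.with_val_at c (Complex.log (ρ c))
  have hρ : ∀ z ∈ ball c r, HasDerivAt ρ (deriv ρ z) z := fun z hz =>
    ((hd z hz).differentiableAt (isOpen_ball.mem_nhds hz)).hasDerivAt
  -- exp (-L) * ρ is constant
  have hE : ∀ z ∈ ball c r, HasDerivAt (fun w => Complex.exp (-L w) * ρ w) 0 z := by
    intro z hz
    have h2 := ((hL z hz).neg.cexp).mul (hρ z hz)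
    have e : Complex.exp (-L z) * -(deriv ρ z / ρ z) * ρ z + Complex.exp (-L z) * deriv ρ z = 0 := by
      have := hne z hz
      field_simp
      ring
    rw [← e]
    exact h2
  have hconst : ∀ z ∈ ball c r, Complex.exp (-L z) * ρ z = 1 := by
    intro z hz
    have h3 : Complex.exp (-L z) * ρ z = Complex.exp (-L c) * ρ c := by
      refine (convex_ball c r).is_const_of_fderivWithin_eq_zero (𝕜 := ℂ)
        (f := fun w => Complex.exp (-L w) * ρ w) ?_ ?_ hz hc
      · exact fun w hw => (hE w hw).differentiableAt.differentiableWithinAt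
      · intro w hw
        rw [fderivWithin_of_isOpen isOpen_ball hw]
        ext
        simpa using (hE w hw).deriv
    rw [h3, hLc, Complex.exp_neg, Complex.exp_log (hne c hc), inv_mul_cancel₀ (hne c hc)]
  have hexp : ∀ z ∈ ball c r, ρ z = Complex.exp (L z) := by
    intro z hz
    have h4 := hconst z hz
    rw [Complex.exp_neg] at h4
    field_simp at h4
    exact h4
  have hre : ∀ z ∈ ball c r, Real.log ‖ρ z‖ = (L z).re := by
    intro z hz
    rw [hexp z hz, Complex.norm_exp, Real.log_exp]
  have hpos : ∀ z ∈ ball c r, 0 < (L z).re := by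
    intro z hz
    rw [← hre z hz]
    exact Real.log_pos (h1 z hz)
  set a := L c with ha
  have ha0 : 0 < a.re := hpos c hc
  have hden : ∀ z ∈ ball c r, L z + (starRingEnd ℂ) a ≠ 0 := by
    intro z hz h0
    have := congrArg Complex.re h0
    simp at this
    have := hpos z hz
    linarith
  have hφd : ∀ z ∈ ball c r, HasDerivAt (fun w => (L w - a) / (L w + (starRingEnd ℂ) a))
      ((deriv ρ z / ρ z * (L z + (starRingEnd ℂ) a) - (L z - a) * (deriv ρ z / ρ z)) /
        (L z + (starRingEnd ℂ) a) ^ 2) z := by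
    intro z hz
    exact ((hL z hz).sub_const a).div ((hL z hz).add_const _) (hden z hz)
  have hmaps : MapsTo (fun w => (L w - a) / (L w + (starRingEnd ℂ) a)) (ball c r)
      (closedBall ((fun w => (L w - a) / (L w + (starRingEnd ℂ) a)) c) 1) := by
    intro z hz
    have e0 : (fun w => (L w - a) / (L w + (starRingEnd ℂ) a)) c = 0 := by simp [ha]
    rw [e0, mem_closedBall, dist_zero_right, norm_div,
      div_le_one (norm_pos_iff.mpr (hden z hz))]
    rw [← sq_le_sq₀ (norm_nonneg _) (norm_nonneg _), ← Complex.normSq_eq_norm_sq,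
      ← Complex.normSq_eq_norm_sq, Complex.normSq_apply, Complex.normSq_apply]
    simp only [Complex.sub_re, Complex.sub_im, Complex.add_re, Complex.add_im, Complex.conj_re,
      Complex.conj_im]
    have := mul_pos (hpos z hz) ha0
    nlinarith
  have hc1 : c₁ ∈ ball c r := by
    rw [mem_ball, dist_eq_norm]
    linarith
  have hS := Complex.dist_le_div_mul_dist_of_mapsTo_ball
    (fun z hz => (hφd z hz).differentiableAt.differentiableWithinAt) hmaps hc1
  have e0 : (L c - a) / (L c + (starRingEnd ℂ) a) = 0 := by simp [ha]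
  rw [e0, dist_zero_right, dist_eq_norm] at hS
  have hS2 : ‖(L c₁ - a) / (L c₁ + (starRingEnd ℂ) a)‖ ≤ 1 / 2 := by
    refine le_trans hS ?_
    rw [div_mul_eq_mul_div, one_mul, div_le_iff₀ hr]
    linarith
  rw [norm_div, div_le_iff₀ (norm_pos_iff.mpr (hden c₁ hc1))] at hS2
  have hS3 : ‖L c₁ - a‖ ^ 2 ≤ (1 / 2 * ‖L c₁ + (starRingEnd ℂ) a‖) ^ 2 :=
    pow_le_pow_left₀ (norm_nonneg _) hS2 2
  rw [mul_pow, ← Complex.normSq_eq_norm_sq,
      ← Complex.normSq_eq_norm_sq, Complex.normSq_apply, Complex.normSq_apply] at hS3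
  simp only [Complex.sub_re, Complex.sub_im, Complex.add_re, Complex.add_im, Complex.conj_re,
      Complex.conj_im] at hS3
  rw [hre c hc, hre c₁ hc1, ← ha]
  have hx := hpos c₁ hc1
  by_contra hcon
  push Not at hcon
  nlinarith [sq_nonneg ((L c₁).im - a.im)]

end XPP
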