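import Pool.Agent.helper60.XP.SpecE

/-!
PVG of project xp: (MP_af9036_an): with `q` constant the coefficients `α`, `γ` of the rational form of `B` cannot both be nonzero.
-/

set_option autoImplicit false

open Complex Metric Set Filter Topology MeasureTheory
open V3 (En ZL)

noncomputable section

namespace XPE

theorem PVG_low0 (α β γ : ℂ) (hγ : γ ≠ 0) : ∃ δ > (0 : ℝ), ∀ y : ℂ, ‖y‖ < δ →
    ‖γ‖ / 2 ≤ ‖(α * y ^ 2 + β * y + γ) / (y - 1) ^ 2‖ := by
  have hcont : ContinuousAt (fun y : ℂ => ‖(α * y ^ 2 + β * y + γ) / (y - 1) ^ 2‖) 0 := by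
    apply ContinuousAt.norm
    apply ContinuousAt.div (by fun_prop) (by fun_prop)
    norm_num
  have h0 : ‖γ‖ / 2 < (fun y : ℂ => ‖(α * y ^ 2 + β * y + γ) / (y - 1) ^ 2‖) 0 := by
    have h1 : (fun y : ℂ => ‖(α * y ^ 2 + β * y + γ) / (y - 1) ^ 2‖) 0 = ‖γ‖ := by simp
    rw [h1]
    have := norm_pos_iff.2 hγ
    linarith
  have hev := hcont.eventually (lt_mem_nhds h0)
  obtain ⟨δ, hδ, h⟩ := Metric.eventually_nhds_iff.1 hev
  exact ⟨δ, hδ, fun y hy => (h (by simpa [dist_eq_norm] using hy)).le⟩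

theorem PVG_arg (t : ℂ) (ht : t ≠ 0) (s η : ℝ) :
    2 * Real.pi * I * (t * (s + η * I)) / t =
      ((-(2 * Real.pi * η) : ℝ) : ℂ) + ((2 * Real.pi * s : ℝ) : ℂ) * I := by
  have h1 : 2 * Real.pi * I * (t * (s + η * I)) / t = 2 * Real.pi * I * (s + η * I) := by
    field_simp
  rw [h1]
  push_cast
  linear_combination (2 * Real.pi * η : ℂ) * Complex.I_sq

theorem PVG_norm (t : ℂ) (ht : t ≠ 0) (s η : ℝ) :
    ‖exp (2 * Real.pi * I * (t * (s + η * I)) / t)‖ = Real.exp (-(2 * Real.pi * η)) := by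
  rw [PVG_arg t ht, Complex.norm_exp]
  simp

theorem PVG_notin (t : ℂ) (ht : t ≠ 0) (s η : ℝ) (hη : η ≠ 0) : t * (s + η * I) ∉ ZL t := by
  rintro ⟨n, hn⟩
  have hn' : (n : ℂ) * t = t * (s + η * I) := hn
  rw [mul_comm] at hn'
  have h := mul_left_cancel₀ ht hn'
  have h2 := congrArg Complex.im h
  simp at h2
  exact hη h2.symm

theorem PVG_lowB (t α β γ : ℂ) (B : ℂ → ℂ) (ht : t ≠ 0) (hα : α ≠ 0) (hγ : γ ≠ 0)
    (hB : ∀ x ∉ ZL t, B x = (α * exp (2 * Real.pi * I * x / t) ^ 2 +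
      β * exp (2 * Real.pi * I * x / t) + γ) / (exp (2 * Real.pi * I * x / t) - 1) ^ 2) :
    ∃ Y > (0 : ℝ), ∃ κ > (0 : ℝ), ∀ s η : ℝ, Y ≤ |η| → κ ≤ ‖B (t * (s + η * I))‖ := by
  obtain ⟨δ₁, hδ₁, h1⟩ := PVG_low0 α β γ hγ
  obtain ⟨δ₂, hδ₂, h2⟩ := PVG_low0 γ β α hα
  have hlim : Tendsto (fun r : ℝ => Real.exp (-(2 * Real.pi * r))) atTop (𝓝 0) := by
    apply Real.tendsto_exp_neg_atTop_nhds_zero.comp
    exact tendsto_id.const_mul_atTop (by positivity)
  have hev : ∀ᶠ r : ℝ in atTop, Real.exp (-(2 * Real.pi * r)) < min δ₁ δ₂ ∧ 0 < r :=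
    (hlim.eventually (gt_mem_nhds (lt_min hδ₁ hδ₂))).and (eventually_gt_atTop 0)
  obtain ⟨Y, hY⟩ := hev.exists
  have hγ' := norm_pos_iff.2 hγ
  have hα' := norm_pos_iff.2 hα
  refine ⟨Y, hY.2, min (‖γ‖ / 2) (‖α‖ / 2), lt_min (by linarith) (by linarith), fun s η hη => ?_⟩
  have hη0 : η ≠ 0 := by
    rintro rfl
    rw [abs_zero] at hη
    linarith [hY.2]
  rw [hB _ (PVG_notin t ht s η hη0)]
  have hnorm := PVG_norm t ht s η
  set y := exp (2 * Real.pi * I * (t * (s + η * I)) / t) with hy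
  have hy0 : y ≠ 0 := Complex.exp_ne_zero _
  rcases le_or_gt 0 η with hpos | hneg
  · rw [abs_of_nonneg hpos] at hη
    have hle : Real.exp (-(2 * Real.pi * η)) ≤ Real.exp (-(2 * Real.pi * Y)) := by
      apply Real.exp_le_exp.2
      have := mul_le_mul_of_nonneg_left hη (by positivity : (0 : ℝ) ≤ 2 * Real.pi)
      linarith
    have h3 : ‖y‖ < δ₁ := by
      rw [hnorm]
      exact lt_of_le_of_lt hle (lt_of_lt_of_le hY.1 (min_le_left _ _))
    exact le_trans (min_le_left _ _) (h1 y h3)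
  · rw [abs_of_neg hneg] at hη
    have hle : Real.exp (2 * Real.pi * η) ≤ Real.exp (-(2 * Real.pi * Y)) := by
      apply Real.exp_le_exp.2
      have := mul_le_mul_of_nonneg_left hη (by positivity : (0 : ℝ) ≤ 2 * Real.pi)
      linarith
    have h3 : ‖y⁻¹‖ < δ₂ := by
      rw [norm_inv, hnorm, ← Real.exp_neg, neg_neg]
      exact lt_of_le_of_lt hle (lt_of_lt_of_le hY.1 (min_le_right _ _))
    have h4 := h2 _ h3
    have e1 : γ * y⁻¹ ^ 2 + β * y⁻¹ + α = (α * y ^ 2 + β * y + γ) / y ^ 2 := by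
      field_simp
      ring
    have e2 : (y⁻¹ - 1) ^ 2 = (y - 1) ^ 2 / y ^ 2 := by
      field_simp
      ring
    rw [e1, e2, div_div_div_cancel_right₀ (pow_ne_zero 2 hy0)] at h4
    exact le_trans (min_le_right _ _) h4

theorem PVG_grow (f f' : ℝ → ℂ) (w : ℝ → ℝ) (Y κ L M : ℝ) (hκ : 0 < κ) (hL : 0 ≤ L) (hM : 0 ≤ M)
    (hf : ∀ r, Y ≤ r → HasDerivAt f (f' r) r) (hf' : ∀ r, Y ≤ r → ‖f' r‖ ≤ L * w r)
    (hw : ∀ r, Y ≤ r → κ * w r ^ 2 ≤ ‖f r‖) (hM0 : ‖f Y‖ ≤ M) :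
    ∀ r, Y ≤ r → w r ≤ Real.sqrt (M / κ) + L / κ * (r - Y) := by
  intro r hr
  have hcont : ContinuousOn (fun y => ‖f y‖) (Icc Y r) := fun y hy =>
    ((hf y hy.1).continuousAt.norm).continuousWithinAt
  obtain ⟨r', hr', hmax⟩ := isCompact_Icc.exists_isMaxOn (nonempty_Icc.2 hr) hcont
  have hmax' : ∀ y ∈ Icc Y r, ‖f y‖ ≤ ‖f r'‖ := fun y hy => hmax hy
  set m := ‖f r'‖ with hm
  have hm0 : 0 ≤ m := norm_nonneg _
  set u := Real.sqrt (m / κ) with hu
  have hu0 : 0 ≤ u := Real.sqrt_nonneg _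
  have hu2 : κ * u ^ 2 = m := by
    rw [hu, Real.sq_sqrt (div_nonneg hm0 hκ.le)]
    field_simp
  have hwu : ∀ y ∈ Icc Y r, w y ≤ u := by
    intro y hy
    have h1 := hw y hy.1
    have h2 := hmax' y hy
    by_contra hcon
    push Not at hcon
    have h3 : u ^ 2 < w y ^ 2 := by
      apply pow_lt_pow_left₀ hcon hu0 (by norm_num)
    have h4 := mul_lt_mul_of_pos_left h3 hκ
    linarith
  have hseg := norm_image_sub_le_of_norm_deriv_le_segment' (f := f) (f' := f') (a := Y) (b := r)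
    (C := L * u) (fun y hy => (hf y hy.1).hasDerivWithinAt)
    (fun y hy => le_trans (hf' y hy.1)
      (mul_le_mul_of_nonneg_left (hwu y ⟨hy.1, hy.2.le⟩) hL)) r' hr'
  have h5 : m ≤ M + L * u * (r - Y) := by
    have h6 : m ≤ ‖f r' - f Y‖ + ‖f Y‖ := by
      have := norm_add_le (f r' - f Y) (f Y)
      rw [sub_add_cancel] at this
      exact this
    have h7 : L * u * (r' - Y) ≤ L * u * (r - Y) :=
      mul_le_mul_of_nonneg_left (by linarith [hr'.2]) (mul_nonneg hL hu0)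
    linarith
  have h8 : u ≤ Real.sqrt (M / κ) + L / κ * (r - Y) := by
    by_contra hcon
    push Not at hcon
    have hs0 : 0 ≤ Real.sqrt (M / κ) := Real.sqrt_nonneg _
    have hs2 : κ * Real.sqrt (M / κ) ^ 2 = M := by
      rw [Real.sq_sqrt (div_nonneg hM hκ.le)]
      field_simp
    have hD : 0 ≤ L / κ * (r - Y) := mul_nonneg (div_nonneg hL hκ.le) (by linarith)
    have hsu : Real.sqrt (M / κ) < u := by linarith
    have hupos : 0 < u := lt_of_le_of_lt hs0 hsu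
    have h9 : κ * u * (Real.sqrt (M / κ) + L / κ * (r - Y)) < κ * u * u :=
      mul_lt_mul_of_pos_left hcon (mul_pos hκ hupos)
    have h10 : κ * u * (L / κ * (r - Y)) = L * u * (r - Y) := by
      field_simp
    have h11 : κ * Real.sqrt (M / κ) ^ 2 ≤ κ * u * Real.sqrt (M / κ) := by
      have := mul_le_mul_of_nonneg_right hsu.le (mul_nonneg hκ.le hs0)
      nlinarith
    nlinarith
  exact le_trans (hwu r ⟨hr, le_refl r⟩) h8

theorem PVG_line (P : Set ℂ) (A g B v q : ℂ → ℂ) (θ t c : ℂ) (hPCO : V3.PCO_stmt)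
    (hL : Lim P A g B v q θ) (ht : t ≠ 0) (hP : P = ZL t) (hq : ∀ x, q x = c) (Y κ : ℝ)
    (hY : 0 < Y) (hκ : 0 < κ) (hlow : ∀ s η : ℝ, Y ≤ |η| → κ ≤ ‖B (t * (s + η * I))‖)
    (σ : ℝ) (hσ : |σ| = 1) :
    ∃ a b : ℝ, 0 ≤ a ∧ 0 ≤ b ∧ ∀ s ∈ Icc (0 : ℝ) 1, ∀ r, Y ≤ r →
      ‖v (t * (s + ((σ * r : ℝ) : ℂ) * I))‖ ≤ a + b * r := by
  obtain ⟨s₀, hs₀, hsep⟩ := hL.sep
  obtain ⟨hcl, -, -⟩ := hPCO P s₀ hs₀ hsep
  have hop : IsOpen Pᶜ := hcl.isOpen_compl
  have hdB : ∀ x ∈ Pᶜ, DifferentiableAt ℂ B x := fun x hx =>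
    hL.Bd.differentiableAt (hop.mem_nhds hx)
  have hF : ∀ x ∈ Pᶜ, HasDerivAt (fun x => v x ^ 2 * B x) (v x * c) x := by
    intro x hx
    have h1 : HasDerivAt v (deriv v x) x := (hL.vd x).hasDerivAt
    have h2 : HasDerivAt B (deriv B x) x := (hdB x hx).hasDerivAt
    have h3 := (h1.pow 2).mul h2
    have h5 := hL.qB x hx
    rw [hq x] at h5
    refine h3.congr_deriv ?_
    rw [h5]
    simp only [Pi.pow_apply]
    push_cast
    ring
  have hnotin : ∀ s r : ℝ, Y ≤ r → t * (s + ((σ * r : ℝ) : ℂ) * I) ∈ Pᶜ := by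
    intro s r hr
    rw [hP]
    apply PVG_notin t ht s (σ * r)
    intro h
    have h2 : |σ * r| = 0 := by rw [h, abs_zero]
    rw [abs_mul, hσ, one_mul, abs_of_pos (lt_of_lt_of_le hY hr)] at h2
    linarith
  have habs : ∀ r : ℝ, Y ≤ r → Y ≤ |σ * r| := by
    intro r hr
    rw [abs_mul, hσ, one_mul, abs_of_pos (lt_of_lt_of_le hY hr)]
    exact hr
  have hpath : ∀ s r : ℝ, HasDerivAt (fun r : ℝ => t * (s + ((σ * r : ℝ) : ℂ) * I))
      (t * ((σ : ℂ) * I)) r := by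
    intro s r
    have h1 : HasDerivAt (fun r : ℝ => ((σ * r : ℝ) : ℂ)) (σ : ℂ) r := by
      simpa using ((hasDerivAt_id r).const_mul σ).ofReal_comp
    exact ((h1.mul_const I).const_add (s : ℂ)).const_mul t
  obtain ⟨M, hM⟩ := (isCompact_Icc (a := (0 : ℝ)) (b := 1)).exists_bound_of_continuousOn
    (f := fun s : ℝ => (fun x => v x ^ 2 * B x) (t * (s + ((σ * Y : ℝ) : ℂ) * I)))
    (fun s _ => by
      apply ContinuousAt.continuousWithinAt
      have h1 : ContinuousAt (fun s : ℝ => t * (s + ((σ * Y : ℝ) : ℂ) * I)) s := by fun_prop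
      exact ContinuousAt.comp (g := fun x => v x ^ 2 * B x)
        (f := fun s : ℝ => t * (s + ((σ * Y : ℝ) : ℂ) * I))
        (hF _ (hnotin s Y le_rfl)).continuousAt h1)
  have hM0 : 0 ≤ M := le_trans (norm_nonneg _) (hM 0 ⟨le_rfl, zero_le_one⟩)
  refine ⟨Real.sqrt (M / κ), ‖c‖ * ‖t‖ / κ, Real.sqrt_nonneg _, by positivity, fun s hs r hr => ?_⟩
  have hg := PVG_grow (fun r : ℝ => (fun x => v x ^ 2 * B x) (t * (s + ((σ * r : ℝ) : ℂ) * I)))
    (fun r : ℝ => v (t * (s + ((σ * r : ℝ) : ℂ) * I)) * c * (t * ((σ : ℂ) * I)))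
    (fun r : ℝ => ‖v (t * (s + ((σ * r : ℝ) : ℂ) * I))‖) Y κ (‖c‖ * ‖t‖) M hκ (by positivity) hM0
    (fun r hr => HasDerivAt.comp r (hF _ (hnotin s r hr)) (hpath s r))
    (fun r hr => by
      have hσ' : ‖(σ : ℂ)‖ = 1 := by rw [Complex.norm_real, Real.norm_eq_abs, hσ]
      rw [norm_mul, norm_mul, norm_mul, norm_mul, hσ', Complex.norm_I]
      apply le_of_eq
      ring)
    (fun r hr => by
      have h1 := hlow s (σ * r) (habs r hr)
      simp only [norm_mul, norm_pow]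
      have h2 := mul_le_mul_of_nonneg_left h1 (sq_nonneg ‖v (t * (s + ((σ * r : ℝ) : ℂ) * I))‖)
      rw [mul_comm]
      simpa only [norm_mul] using h2)
    (hM s hs) r hr
  have h2 : ‖c‖ * ‖t‖ / κ * (r - Y) ≤ ‖c‖ * ‖t‖ / κ * r :=
    mul_le_mul_of_nonneg_left (by linarith) (by positivity)
  have hg' : ‖v (t * (s + ((σ * r : ℝ) : ℂ) * I))‖ ≤
    Real.sqrt (M / κ) + ‖c‖ * ‖t‖ / κ * (r - Y) := hg
  linarith

/-- a Fourier coefficient with at most linear growth against `exp (2 π k r)`, `k ≥ 1`, vanishes. -/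
theorem PVG_lin (C a b Y k : ℝ) (hC : 0 ≤ C) (ha : 0 ≤ a) (_hb : 0 ≤ b) (hk : 1 ≤ k)
    (h : ∀ r, Y ≤ r → C * Real.exp (2 * Real.pi * k * r) ≤ a + b * r) : C = 0 := by
  by_contra hne
  have hC' : 0 < C := lt_of_le_of_ne hC (Ne.symm hne)
  set r := max Y (max 1 (2 * (a + b) / C + 1)) with hr
  have hrY : Y ≤ r := le_max_left _ _
  have hr1 : 1 ≤ r := le_trans (le_max_left _ _) (le_max_right _ _)
  have hr2 : 2 * (a + b) / C + 1 ≤ r := le_trans (le_max_right _ _) (le_max_right _ _)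
  have h1 := h r hrY
  have h2 : r ^ 2 / 2 ≤ Real.exp (2 * Real.pi * k * r) := by
    have h3 := Real.quadratic_le_exp_of_nonneg (by linarith : (0 : ℝ) ≤ r)
    have h4 : Real.exp r ≤ Real.exp (2 * Real.pi * k * r) := by
      apply Real.exp_le_exp.2
      have hpi := Real.pi_gt_three
      have h5 : 1 ≤ 2 * Real.pi * k := by nlinarith
      nlinarith
    nlinarith
  have h6 : C * (r ^ 2 / 2) ≤ a + b * r := le_trans (mul_le_mul_of_nonneg_left h2 hC) h1
  have h7 : a + b * r ≤ (a + b) * r := by nlinarith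
  have h8 : 2 * (a + b) < C * r := by
    have h9 : 2 * (a + b) / C < r := by linarith
    rw [div_lt_iff₀ hC'] at h9
    linarith
  nlinarith

theorem PVG_expint (n : ℤ) (hn : n ≠ 0) :
    ∫ s in (0 : ℝ)..1, exp (-(2 * Real.pi * I * n * s)) = 0 := by
  have hc : (-(2 * Real.pi * I * n) : ℂ) ≠ 0 := by
    have h1 : (Real.pi : ℂ) ≠ 0 := by exact_mod_cast Real.pi_ne_zero
    have h2 : (n : ℂ) ≠ 0 := by exact_mod_cast hn
    simp [h1, h2]
  have h := integral_exp_mul_complex (a := 0) (b := 1) hc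
  have e : ∀ s : ℝ, exp (-(2 * Real.pi * I * n * s)) = exp (-(2 * Real.pi * I * n) * s) := by
    intro s
    congr 1
    ring
  simp_rw [e]
  rw [h]
  have h1 : exp (-(2 * Real.pi * I * n) * ((1 : ℝ) : ℂ)) = 1 := by
    rw [Complex.exp_eq_one_iff]
    refine ⟨-n, ?_⟩
    push_cast
    ring
  rw [h1]
  simp

theorem PVG (hPPE : PPE_stmt) (hPFO : V3.PFO_stmt) (hPCO : V3.PCO_stmt) : PVG_stmt := by
  intro P A g B v q θ t α β γ c hL ht hP hA hB hα hγ hq
  obtain ⟨hper, -, -, -⟩ := hPPE P A g B v q θ t hL ht hP hA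
  obtain ⟨Y, hY, κ, hκ, hlow⟩ := PVG_lowB t α β γ B ht hα hγ (by rw [← hP]; exact hB)
  obtain ⟨a₁, b₁, ha₁, hb₁, hv₁⟩ := PVG_line P A g B v q θ t c hPCO hL ht hP hq Y κ hY hκ hlow 1
    (by norm_num)
  obtain ⟨a₂, b₂, ha₂, hb₂, hv₂⟩ := PVG_line P A g B v q θ t c hPCO hL ht hP hq Y κ hY hκ hlow (-1)
    (by norm_num)
  obtain ⟨d, hd, -⟩ := hPFO v t hL.vd ht hper
  have hexpn : ∀ (n : ℤ) (s : ℝ), ‖exp (-(2 * Real.pi * I * n * s))‖ = 1 := by
    intro n s
    have e : (-(2 * Real.pi * I * n * s) : ℂ) = ((-(2 * Real.pi * n * s) : ℝ) : ℂ) * I := by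
      push_cast
      ring
    rw [e, Complex.norm_exp_ofReal_mul_I]
  have hbound : ∀ (n : ℤ) (η C : ℝ), (∀ s ∈ Icc (0 : ℝ) 1, ‖v (t * (s + (η : ℂ) * I))‖ ≤ C) →
      ‖d n‖ * Real.exp (-(2 * Real.pi * n * η)) ≤ C := by
    intro n η C hC
    have h1 := intervalIntegral.norm_integral_le_of_norm_le_const (a := (0 : ℝ)) (b := 1) (C := C)
      (f := fun s : ℝ => v (t * (s + (η : ℂ) * I)) * exp (-(2 * Real.pi * I * n * s)))
      (fun s hs => by
        rw [norm_mul, hexpn, mul_one]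
        rw [uIoc_of_le zero_le_one] at hs
        exact hC s ⟨hs.1.le, hs.2⟩)
    rw [hd n η, norm_mul, Complex.norm_real, Real.norm_of_nonneg (Real.exp_pos _).le] at h1
    simpa using h1
  have hdn : ∀ n : ℤ, n ≠ 0 → d n = 0 := by
    intro n hn
    rw [← norm_eq_zero]
    rcases lt_or_gt_of_ne hn with hneg | hpos
    · apply PVG_lin ‖d n‖ a₁ b₁ Y (-(n : ℝ)) (norm_nonneg _) ha₁ hb₁
      · have : n ≤ -1 := by omega
        have : (n : ℝ) ≤ -1 := by exact_mod_cast this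
        linarith
      · intro r hr
        have h1 := hbound n (1 * r) (a₁ + b₁ * r) (fun s hs => hv₁ s hs r hr)
        have e : -(2 * Real.pi * n * (1 * r)) = 2 * Real.pi * (-(n : ℝ)) * r := by ring
        rw [e] at h1
        exact h1
    · apply PVG_lin ‖d n‖ a₂ b₂ Y (n : ℝ) (norm_nonneg _) ha₂ hb₂
      · have : 1 ≤ n := by omega
        exact_mod_cast this
      · intro r hr
        have h1 := hbound n (-1 * r) (a₂ + b₂ * r) (fun s hs => hv₂ s hs r hr)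
        have e : -(2 * Real.pi * n * (-1 * r)) = 2 * Real.pi * (n : ℝ) * r := by ring
        rw [e] at h1
        exact h1
  obtain ⟨e, he, he0⟩ := hPFO (fun x => v x - d 0) t (hL.vd.sub_const _) ht
    (fun x => by simp only [hper x])
  have hconst : ∀ x, v x - d 0 = 0 := by
    apply he0
    intro n
    have h1 := he n 0
    have h2 := hd n 0
    have hint : ∫ s in (0 : ℝ)..1, (v (t * (s + ((0 : ℝ) : ℂ) * I)) - d 0) *
        exp (-(2 * Real.pi * I * n * s)) =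
        (∫ s in (0 : ℝ)..1, v (t * (s + ((0 : ℝ) : ℂ) * I)) * exp (-(2 * Real.pi * I * n * s))) -
        d 0 * ∫ s in (0 : ℝ)..1, exp (-(2 * Real.pi * I * n * s)) := by
      rw [← intervalIntegral.integral_const_mul, ← intervalIntegral.integral_sub]
      · congr 1
        funext s
        ring
      · apply Continuous.intervalIntegrable
        have := hL.vd.continuous
        fun_prop
      · apply Continuous.intervalIntegrable
        fun_prop
    simp only [mul_zero, neg_zero, Real.exp_zero, Complex.ofReal_one, mul_one] at h1 h2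
    rw [← h1, hint, h2]
    by_cases hn : n = 0
    · subst hn
      simp
    · rw [PVG_expint n hn, hdn n hn]
      simp
  have hvc : v = fun _ => d 0 := by
    funext x
    have := hconst x
    linear_combination this
  have h0 := (hL.v0 0 hL.zero).2
  rw [hvc] at h0
  simp at h0

end XPE
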