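import Pool.Agent.helper74.XP.SpecP

set_option autoImplicit false

open Complex Metric Set Filter Topology MeasureTheory MPS PPS Pool.Agent.helper16.Multibrot

noncomputable section

namespace XPP

lemma SEQ_fin (f : Polynomial ℂ) (hf : 2 ≤ f.natDegree) (k : ℕ) (hk : 0 < k) :
    {z : ℂ | (fun w : ℂ => f.eval w)^[k] z = z}.Finite := by
  set P : Polynomial ℂ := f.comp^[k] Polynomial.X - Polynomial.X with hP
  have hP0 : P ≠ 0 := by
    intro h0
    have h1 : f.comp^[k] Polynomial.X = Polynomial.X := sub_eq_zero.mp h0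
    have h2 := congrArg Polynomial.natDegree h1
    rw [Polynomial.natDegree_iterate_comp, Polynomial.natDegree_X, mul_one] at h2
    have h3 : 2 ≤ f.natDegree ^ k := by
      calc 2 ≤ f.natDegree := hf
        _ = f.natDegree ^ 1 := (pow_one _).symm
        _ ≤ f.natDegree ^ k := Nat.pow_le_pow_right (by omega) hk
    omega
  apply (P.roots.toFinset.finite_toSet).subset
  intro z hz
  simp only [Set.mem_ofPred_eq] at hz
  simp only [Finset.mem_coe, Multiset.mem_toFinset]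
  rw [Polynomial.mem_roots hP0, Polynomial.IsRoot.def, hP, Polynomial.eval_sub,
    Polynomial.iterate_comp_eval, Polynomial.eval_X, hz, sub_self]

lemma SEQ_mk (hZCY : PPS.ZCY_stmt) (hTG : PPS.TG_stmt) (f : Polynomial ℂ) (ε : ℝ)
    (hf : 2 ≤ f.natDegree) (k : ℕ) (z : ℂ) (h : Rep f k z) (hε : ‖PPS.mlt f k z‖ < 1 + ε) :
    ∃ O : CY f, O.k = k ∧ ‖PPS.rho f O.b‖ < 1 + ε := by
  obtain ⟨hc, hm⟩ := h
  haveI : NeZero k := ⟨hc.1.ne'⟩
  obtain ⟨b, -, -, -, -, hρ, hcyc⟩ := hZCY f k z hc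
  have hm0 : PPS.mlt f k z ≠ 0 := by
    intro h0
    rw [h0, norm_zero] at hm
    linarith
  have hC : PPS.IsCyc f b := hcyc hm0
  have hρ1 : 1 < ‖PPS.rho f b‖ := by rw [hρ]; exact hm
  have hne : PPS.rho f b ≠ 1 := by
    intro h1
    rw [h1, norm_one] at hρ1
    exact lt_irrefl _ hρ1
  obtain ⟨g, hg, -⟩ := hTG f.natDegree k f b hf rfl hC hne
  refine ⟨⟨k, inferInstance, b, g, hC, hρ1, hg⟩, rfl, ?_⟩
  change ‖PPS.rho f b‖ < 1 + ε
  rw [hρ]
  exact hε

theorem SEQ (hZCY : PPS.ZCY_stmt) (hTG : PPS.TG_stmt) : SEQ_stmt := by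
  intro f ε hf hinf
  have hlarge : ∀ K : ℕ, ∃ O : CY f, K < O.k ∧ ‖PPS.rho f O.b‖ < 1 + ε := by
    intro K
    by_contra hcon
    push Not at hcon
    apply hinf
    have hsub : {z : ℂ | ∃ k, Rep f k z ∧ ‖PPS.mlt f k z‖ < 1 + ε} ⊆
        ⋃ k ∈ Finset.Icc 1 K, {z : ℂ | (fun w : ℂ => f.eval w)^[k] z = z} := by
      rintro z ⟨k, hk, hε⟩
      obtain ⟨O, hOk, hOρ⟩ := SEQ_mk hZCY hTG f ε hf k z hk hε
      have hkK : k ≤ K := by
        by_contra hlt
        push Not at hlt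
        have := hcon O (by rw [hOk]; exact hlt)
        linarith
      simp only [Set.mem_iUnion, Finset.mem_Icc, Set.mem_ofPred_eq]
      refine ⟨k, ⟨hk.1.1, hkK⟩, ?_⟩
      have hp := Function.isPeriodicPt_minimalPeriod (fun w : ℂ => f.eval w) z
      rw [hk.1.2] at hp
      exact hp
    refine Set.Finite.subset ?_ hsub
    apply Set.Finite.biUnion (Finset.finite_toSet _)
    intro k hk
    exact SEQ_fin f hf k (by have := Finset.mem_Icc.mp hk; omega)
  choose F hF using hlarge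
  let O : ℕ → CY f := fun i => Nat.rec (F 0) (fun _ o => F o.k) i
  have hsucc : ∀ i, O (i + 1) = F (O i).k := fun i => rfl
  refine ⟨O, strictMono_nat_of_lt_succ ?_, ?_⟩
  · intro i
    rw [hsucc]
    exact (hF _).1
  · intro i
    cases i with
    | zero => exact (hF 0).2
    | succ i => exact (hF (O i).k).2

end XPP
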